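import Pool.Agent.H64.D1.Lit
import Pool.Agent.H64.D1.Imb
import Pool.Agent.H16.DIR.Key

/-!
# Two alive places of one slope below a faster target: the images of the blocks

`fig : FigStmt`: fullness of one image of every block of digits of the alive places, from the theorem
about one block.
-/

set_option autoImplicit false

namespace Pool.D178

open Finset Real MvPolynomial
open Pool.Agent.H49.Ent Pool.Agent.H32.Dense
open Pool.STK hiding pr2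
open Pool.KA Pool.KSAT Pool.K2S Pool.PB Pool.S6C
open Pool.GEN Pool.CHT Pool.CHX Pool.LA91 Pool.RCD Pool.V0F
open Pool.T4N (Frm FrmP fX fV fXs fVs dgV cYp cR1 ClE cR1_eq)
open Pool.IMN17 (ImK)
open Pool.T4G (NrW fl_wall)
open Pool.T4C (FI1G FI1OnG)
open Pool.AVG57 (upw upw_slam)
open Pool.DIR21 (cond_ci Pe_ci)
open Pool.DIR16 (cond_cc Pe_cc)
open Pool.D164

variable {m J : ℕ}

/-- Only the atoms of positive mass of an event matter. -/
theorem pe_supp {Ω : Type} [Fintype Ω] {p : Ω → ℝ} (hp : ∀ ω, 0 ≤ p ω) (G : Ω → Prop) :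
    Pe p (fun ω => G ω ∧ 0 < p ω) = Pe p G := by
  rw [Pe_ci, Pe_ci]
  refine Finset.sum_congr rfl fun ω _ => ?_
  rcases (hp ω).eq_or_lt with h | h
  · rw [← h, zero_mul, zero_mul]
  · have : (G ω ∧ 0 < p ω) = G ω := propext ⟨fun x => x.1, fun x => ⟨x, h⟩⟩
    rw [this]

theorem cond_supp {Ω : Type} [Fintype Ω] {p : Ω → ℝ} (hp : ∀ ω, 0 ≤ p ω) (G : Ω → Prop) :
    Pool.Agent.H49.Ent.cond p (fun ω => G ω ∧ 0 < p ω) True =
      Pool.Agent.H49.Ent.cond p G True := by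
  funext ω
  rw [cond_ci, cond_ci, pe_supp hp]
  rcases (hp ω).eq_or_lt with h | h
  · rw [← h, zero_mul, zero_mul]
  · have : (G ω ∧ 0 < p ω) = G ω := propext ⟨fun x => x.1, fun x => ⟨x, h⟩⟩
    rw [this]

/-- The record is a function of the exact point. -/
theorem cR_ptr (F : Fam m J) (B : F.Ω → Prop) (w : ℝ) :
    ∃ φ : PtT F → (ClE F B w → Prop), ∀ ω, B ω → cR F B w ω = φ (ptr F J ω) := by
  choose φ hφ using fun D : ClE F B w => D.2.1
  exact ⟨fun x D => φ D x, fun ω hω => funext fun D => hφ D ω hω⟩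

/-- Two samples with one exact position of `c 0`. -/
theorem x_near {F : Fam m J} {i : Fin m} {ω ω' : F.Ω} (h1 : F.X J ω i = F.X J ω' i) :
    |F.x ω i - F.x ω' i| ≤ 1 / 2 ^ J := by
  have h2 := Int.floor_le ((2 : ℝ) ^ J * F.x ω i)
  have h3 := Int.lt_floor_add_one ((2 : ℝ) ^ J * F.x ω i)
  have h4 := Int.floor_le ((2 : ℝ) ^ J * F.x ω' i)
  have h5 := Int.lt_floor_add_one ((2 : ℝ) ^ J * F.x ω' i)
  have h7 : ⌊(2 : ℝ) ^ J * F.x ω i⌋ = ⌊(2 : ℝ) ^ J * F.x ω' i⌋ := h1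
  rw [h7] at h2 h3
  have h6 : |(2 : ℝ) ^ J * F.x ω i - 2 ^ J * F.x ω' i| ≤ 1 := by
    rw [abs_le]
    constructor <;> linarith
  rw [← mul_sub, abs_mul, abs_of_pos (by positivity)] at h6
  rw [le_div_iff₀ (by positivity)]
  linarith

/-- **The digits of the position of `c 0` off the walls** are functions of the exact position. -/
theorem yL_eq {F : Fam m J} {c : ℕ → Fin m} {lP k : ℕ} {ω ω' : F.Ω} (h6 : 6 ≤ lP) (hlP : lP ≤ J)
    (hw : ¬ NrW 2 (yL F c lP k ω)) (hx : F.X J ω (c 0) = F.X J ω' (c 0)) :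
    ⌊yL F c lP k ω⌋ = ⌊yL F c lP k ω'⌋ := by
  refine fl_wall hw ?_
  have e : yL F c lP k ω - yL F c lP k ω' = 2 ^ (lP - 6) * (F.x ω (c 0) - F.x ω' (c 0)) := by
    unfold yL
    ring
  have p : (0 : ℝ) < 2 ^ (lP - 6) := by positivity
  rw [e, abs_mul, abs_of_pos p]
  have h1 := x_near hx
  have h2 : (2 : ℝ) ^ (lP - 6) * 2 ^ 6 ≤ 2 ^ J := by
    rw [← pow_add]
    exact pow_le_pow_right₀ (by norm_num) (by omega)
  have h3 : (2 : ℝ) ^ (lP - 6) * |F.x ω (c 0) - F.x ω' (c 0)| ≤ 2 ^ (lP - 6) * (1 / 2 ^ J) :=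
    mul_le_mul_of_nonneg_left h1 p.le
  have pJ : (0 : ℝ) < 2 ^ J := by positivity
  have h4 : (2 : ℝ) ^ (lP - 6) * (1 / 2 ^ J) ≤ 1 / 64 := by
    rw [mul_one_div, div_le_div_iff₀ pJ (by norm_num)]
    linarith
  push_cast
  linarith

/-- **The images of the blocks.** -/
theorem fig : FigStmt := by
  intro m S c sn hpos n v xa ε R κ κ' μ h ϖ W hxa hv hI hε hμ hκ hκ' hh hϖ
  have hp : Bas S (fun _ F A => 0 < Pe F.p A) := ⟨1, one_pos, 0, fun J _ F A hA => hpos 1 J F A hA⟩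
  have h1 := Bas.all n fun i hi => img_blk hpos (hI i hi) hε hμ hκ hκ' hh (W i)
  refine Bas.mono 0 ((Pool.LBK.Bas.ev h1 hϖ).and hp) ?_
  rintro J - F A ⟨h2, hA⟩ w P Fr hFr hnat g u lP ks h6 hlP hg hu hR hW z N Y0 hD
  intro j kL kP ka E hkj hk1 hkE i hi G hGE hGm hG0
  have hin : i < n := Finset.mem_range.1 hi
  obtain ⟨hxv, hv1⟩ := hv i hin
  have hJ0 : (0 : ℝ) ≤ J := Nat.cast_nonneg J
  have hwv : ⌊xa * J⌋₊ ≤ ⌊v i * J⌋₊ := Nat.floor_le_floor (mul_le_mul_of_nonneg_right hxv hJ0)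
  have hvJ : ⌊v i * J⌋₊ ≤ J := by
    have h3 : v i * J ≤ J := by nlinarith
    exact (Nat.floor_le_floor h3).trans (le_of_eq (Nat.floor_natCast J))
  have hup := fun ω => upw_slam F hwv hvJ ω
  -- the subevent
  obtain ⟨B, hB⟩ : ∃ B : F.Ω → Prop, B = fun ω => A ω ∧ (G ω ∧ 0 < cB F A ω) := ⟨_, rfl⟩
  have hq := isLaw_cond F.isLaw hA
  have hBA : Sub B A := fun ω hω => by
    rw [hB] at hω
    exact hω.1
  have hG' : Pe (cB F A) (fun ω => G ω ∧ 0 < cB F A ω) = Pe (cB F A) G := pe_supp hq.nonneg G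
  have hPB : Pe F.p B = Pe F.p A * Pe (cB F A) G := by
    rw [hB, ← hG']
    exact Pe_cc hA
  have hcB : Pool.Agent.H49.Ent.cond (cB F A) G True = Pool.Agent.H49.Ent.cond F.p B True := by
    rw [← cond_supp hq.nonneg G, hB]
    exact cond_cc hA
  have hBm : ϖ * Pe F.p A ≤ Pe F.p B := by
    rw [hPB, mul_comm]
    exact mul_le_mul_of_nonneg_left hGm hA.le
  have hB0 : 0 < Pe F.p B := by
    rw [hPB]
    exact mul_pos hA hG0
  have hqB := isLaw_cond F.isLaw hB0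
  -- the codes
  obtain ⟨φ, hφ⟩ := cR_ptr F A xa
  have h3 := h2 B hBA hBm i hin (fX F c w Fr) (fV F c w Fr) ((hnat i hin).sub hBA) g u i
    (fun l => hg i hin l) (hu i hin) (hR i hin) (fun l => hW i hin l)
    ((ClE F A xa → Prop) × (Fin 3 → ℤ)) (fun x => (φ x, kP x))
    (fun s => (cR1 F A xa (upw ⌊xa * J⌋₊ ⌊v i * J⌋₊ s), kL (upw ⌊xa * J⌋₊ ⌊v i * J⌋₊ s)))
    (fun ω hω => by
      have hω' : A ω ∧ (G ω ∧ 0 < cB F A ω) := by
        rw [hB] at hω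
        exact hω
      refine Prod.ext ?_ ?_
      · show φ (ptr F J ω) = cR1 F A xa (upw ⌊xa * J⌋₊ ⌊v i * J⌋₊ (slam F ⌊v i * J⌋₊ ω))
        rw [hup ω, cR1_eq hω'.1, hφ ω hω'.1]
      · show kP (ptr F J ω) = kL (upw ⌊xa * J⌋₊ ⌊v i * J⌋₊ (slam F ⌊v i * J⌋₊ ω))
        rw [hup ω]
        exact (hkE ω hω'.2.2 (hGE ω hω'.2.1)).symm)
    (fun ω => z (ptr F J ω)) (fun ω => N (ptr F J ω) 0)
    (fun ω hω l => hD.zz ω (hBA ω hω) l) (fun ω hω => hD.nn ω (hBA ω hω) 0)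
    (ℤ × ((ClE F A xa → Prop) × (ℕ × F.ζ))) (fun ω => Y0 (ptr F J ω))
    (fun ω ω' hω hω' ex ey eW => by
      have e1 := congrArg Prod.fst ey
      have e2 : cR1 F A xa (upw ⌊xa * J⌋₊ ⌊v i * J⌋₊ (slam F ⌊v i * J⌋₊ ω)) =
        cR1 F A xa (upw ⌊xa * J⌋₊ ⌊v i * J⌋₊ (slam F ⌊v i * J⌋₊ ω')) := e1
      rw [hup ω, hup ω', cR1_eq (hBA ω hω), cR1_eq (hBA ω' hω')] at e2
      show Y0 (ptr F J ω) = Y0 (ptr F J ω')
      rw [hD.y0 ω (hBA ω hω), hD.y0 ω' (hBA ω' hω'), e2, eW,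
        yL_eq h6 hlP (hD.off ω (hBA ω hω)) ex])
    Prod.snd ka j hkj hk1
  rw [hcB]
  refine h3.trans (le_of_eq ?_)
  refine CH_congr hqB.nonneg ?_ ?_ ?_ ?_
  · intro ω ω' _ _ e
    have e1 := (Prod.ext_iff.1 e).1
    simp only [hup] at e1
    exact e1
  · intro ω ω' _ _ e
    have e1 := (Prod.ext_iff.1 e).1
    simp only [hup]
    exact e1
  · intro ω ω' _ _ e
    simp only [hup, Prod.mk.injEq] at e
    obtain ⟨a1, a2, a3, a4⟩ := e
    simp only [Prod.mk.injEq]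
    refine ⟨a1, a2, a3, ?_⟩
    funext k
    have : k = 0 := Subsingleton.elim _ _
    rw [this]
    exact a4
  · intro ω ω' _ _ e
    simp only [Prod.mk.injEq] at e
    obtain ⟨a1, a2, a3, a4⟩ := e
    simp only [hup, Prod.mk.injEq]
    exact ⟨a1, a2, a3, congrFun a4 0⟩

end Pool.D178
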